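import Pool.Agent.Q2N.Stmts

/-!
# Q2N: module AMB, the order `F⟨y, f y⟩` of GK dimension two
-/

set_option autoImplicit false

open Module

namespace Pool.Agent.Q2N.H9

open Pool.Agent.UW Pool.Agent.Q2N

variable {F K : Type} [Field F] [Field K] [Algebra F K]

section Acc

variable (S : Dat F K)

theorem smul_DD (c : F) (d : DD S.σ) : c • d = ι S.σ (algebraMap F K c) * d := by
  rw [Algebra.smul_def, algebraMap_DD]

theorem mo_add (g h : K) (m : ℤ) : mo S.σ (g + h) m = mo S.σ g m + mo S.σ h m := by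
  rw [mo_eq, mo_eq, mo_eq, map_add, add_mul]

theorem mo_smul (c : F) (g : K) (m : ℤ) : mo S.σ (c • g) m = c • mo S.σ g m := by
  rw [smul_DD, mo_eq, mo_eq, Algebra.smul_def, map_mul, mul_assoc]

/-- `g ↦ g y^m` -/
noncomputable def mol (m : ℤ) : K →ₗ[F] DD S.σ where
  toFun g := mo S.σ g m
  map_add' g h := mo_add S g h m
  map_smul' c g := mo_smul S c g m

theorem mol_apply (m : ℤ) (g : K) : mol S m g = mo S.σ g m := rfl

theorem mol_inj (m : ℤ) : Function.Injective (mol S m) := by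
  intro g h hgh
  have h1 : (ψ S.σ (mo S.σ g m)).coeff m = (ψ S.σ (mo S.σ h m)).coeff m := by
    have : mo S.σ g m = mo S.σ h m := hgh
    rw [this]
  rw [ψ_mo, ψ_mo, sgl_coeff, sgl_coeff, if_pos rfl, if_pos rfl] at h1
  exact h1

/-- `σ` as a linear map -/
noncomputable def sil : K →ₗ[F] K where
  toFun g := S.σ g
  map_add' g h := map_add S.σ g h
  map_smul' c g := by
    rw [Algebra.smul_def, map_mul, S.σ_const, RingHom.id_apply, Algebra.smul_def]

theorem sil_apply (g : K) : sil S g = S.σ g := rfl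

theorem sil_inj : Function.Injective (sil S) := fun _ _ h => S.σ.injective h

/-- `⊕_(m ≤ n) W_m y^m` -/
noncomputable def acc (W : ℕ → Submodule F K) : ℕ → Submodule F (DD S.σ)
  | 0 => (W 0).map (mol S ((0 : ℕ) : ℤ))
  | n + 1 => acc W n ⊔ (W (n + 1)).map (mol S ((n + 1 : ℕ) : ℤ))

variable {S}

theorem le_acc {W : ℕ → Submodule F K} {m n : ℕ} (h : m ≤ n) :
    (W m).map (mol S (m : ℤ)) ≤ acc S W n := by
  induction n with
  | zero =>
    obtain rfl : m = 0 := by omega
    exact le_rfl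
  | succ n ih =>
    rcases Nat.lt_or_ge n m with h1 | h1
    · obtain rfl : m = n + 1 := by omega
      exact le_sup_right
    · exact (ih h1).trans le_sup_left

theorem acc_le {W : ℕ → Submodule F K} {n : ℕ} {T : Submodule F (DD S.σ)}
    (h : ∀ m, m ≤ n → (W m).map (mol S (m : ℤ)) ≤ T) : acc S W n ≤ T := by
  induction n with
  | zero => exact h 0 le_rfl
  | succ n ih => exact sup_le (ih fun m hm => h m (by omega)) (h (n + 1) le_rfl)

theorem acc_fin {W : ℕ → Submodule F K} (hW : ∀ m, FiniteDimensional F (W m)) (n : ℕ) :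
    FiniteDimensional F (acc S W n) := by
  induction n with
  | zero =>
    have := hW 0
    exact inferInstanceAs (FiniteDimensional F ((W 0).map (mol S ((0 : ℕ) : ℤ))))
  | succ n ih =>
    have := hW (n + 1)
    exact inferInstanceAs
      (FiniteDimensional F ↥(acc S W n ⊔ (W (n + 1)).map (mol S ((n + 1 : ℕ) : ℤ))))

theorem acc_coeff {W : ℕ → Submodule F K} {n : ℕ} {x : DD S.σ} (hx : x ∈ acc S W n) (j : ℤ)
    (hj : (n : ℤ) < j) : (ψ S.σ x).coeff j = 0 := by
  induction n generalizing x with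
  | zero =>
    obtain ⟨g, _, rfl⟩ := Submodule.mem_map.1 hx
    rw [mol_apply, ψ_mo, sgl_coeff, if_neg (by omega)]
  | succ n ih =>
    obtain ⟨a, ha, b, hb, rfl⟩ := Submodule.mem_sup.1 hx
    obtain ⟨g, _, rfl⟩ := Submodule.mem_map.1 hb
    rw [map_add, SkewLaurent.coeff_add, ih ha (by omega), mol_apply, ψ_mo, sgl_coeff,
      if_neg (by omega), add_zero]

theorem finrank_map_mol (U : Submodule F K) (m : ℤ) :
    finrank F (U.map (mol S m)) = finrank F U :=
  (Submodule.equivMapOfInjective (mol S m) (mol_inj S m) U).finrank_eq.symm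

theorem acc_finrank {W : ℕ → Submodule F K} (hW : ∀ m, FiniteDimensional F (W m)) (n : ℕ) :
    finrank F (acc S W n) = ∑ m ∈ Finset.range (n + 1), finrank F (W m) := by
  induction n with
  | zero =>
    rw [Finset.sum_range_one]
    exact finrank_map_mol (W 0) _
  | succ n ih =>
    have h1 := hW (n + 1)
    have h2 := acc_fin (S := S) hW n
    have h3 : acc S W n ⊓ (W (n + 1)).map (mol S ((n + 1 : ℕ) : ℤ)) = ⊥ := by
      rw [eq_bot_iff]
      rintro x ⟨hx1, hx2⟩
      obtain ⟨g, _, rfl⟩ := Submodule.mem_map.1 hx2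
      have h4 := acc_coeff hx1 ((n + 1 : ℕ) : ℤ) (by push_cast; omega)
      rw [mol_apply, ψ_mo, sgl_coeff, if_pos rfl] at h4
      rw [h4, map_zero]
      exact Submodule.zero_mem _
    have h5 := Submodule.finrank_sup_add_finrank_inf_eq (acc S W n)
      ((W (n + 1)).map (mol S ((n + 1 : ℕ) : ℤ)))
    rw [h3, finrank_bot, add_zero, ih, finrank_map_mol] at h5
    rw [Finset.sum_range_succ _ (n + 1)]
    exact h5

end Acc

section Pole

variable (S : Dat F K)

/-- the pole order -/
noncomputable def pl (f : K) (p : S.X) : ℕ := by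
  classical
  exact if h : S.v p f = ⊤ then 0 else (-((S.v p f).untop h)).toNat

theorem pl_spec (f : K) (p : S.X) : ng (pl S f p) ≤ S.v p f := by
  unfold pl
  split_ifs with h
  · rw [h]; exact le_top
  · conv_rhs => rw [← WithTop.coe_untop _ h]
    unfold ng
    rw [WithTop.coe_le_coe]
    omega

theorem pl_fin (f : K) : {p : S.X | pl S f p ≠ 0}.Finite := by
  by_cases hf : f = 0
  · subst hf
    refine Set.Finite.subset Set.finite_empty fun p hp => ?_
    exfalso
    apply hp
    unfold pl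
    rw [dif_pos]
    exact (S.v p).map_zero
  · refine (S.fin f hf).subset fun p hp h => hp ?_
    unfold pl
    split_ifs with h1
    · rfl
    · have h2 : (S.v p f).untop h1 = 0 := by
        rw [← WithTop.coe_inj, WithTop.coe_untop, h]
        rfl
      rw [h2]
      rfl

/-- the pole orders of `f, σ f, .., σ^(m-1) f` -/
noncomputable def nu (f : K) : ℕ → S.X → ℕ
  | 0 => fun _ => 0
  | m + 1 => fun p => pl S f p + nu f m (S.τ p)

theorem nu_fin (f : K) (m : ℕ) : {p : S.X | nu S f m p ≠ 0}.Finite := by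
  induction m with
  | zero =>
    refine Set.Finite.subset Set.finite_empty fun p hp => hp rfl
  | succ m ih =>
    have h1 : ((fun p => S.τ p) ⁻¹' {p : S.X | nu S f m p ≠ 0}).Finite :=
      ih.preimage (S.τ.injective.injOn)
    refine ((pl_fin S f).union h1).subset fun p hp => ?_
    by_contra h2
    rw [Set.mem_union, not_or] at h2
    apply hp
    have h3 : pl S f p = 0 := not_not.1 h2.1
    have h4 : nu S f m (S.τ p) = 0 := not_not.1 h2.2
    show pl S f p + nu S f m (S.τ p) = 0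
    rw [h3, h4]

theorem nu_sum (f : K) (m : ℕ) : ∑ᶠ p, nu S f m p = m * ∑ᶠ p, pl S f p := by
  induction m with
  | zero =>
    rw [zero_mul]
    exact finsum_zero
  | succ m ih =>
    have h1 : ((fun p => S.τ p) ⁻¹' {p : S.X | nu S f m p ≠ 0}).Finite :=
      (nu_fin S f m).preimage (S.τ.injective.injOn)
    have h2 : ∑ᶠ p, nu S f (m + 1) p = ∑ᶠ p, (pl S f p + nu S f m (S.τ p)) := rfl
    rw [h2, finsum_add_distrib (pl_fin S f) h1, finsum_comp_equiv S.τ, ih]
    ring

/-- the functions with poles bounded by `nu` -/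
def WW (f : K) (m : ℕ) : Submodule F K where
  carrier := {g | ∀ p, ng (nu S f m p) ≤ S.v p g}
  add_mem' := fun {a b} ha hb p => (le_min (ha p) (hb p)).trans ((S.v p).map_add a b)
  zero_mem' := fun p => by
    rw [(S.v p).map_zero]
    exact le_top
  smul_mem' := fun c g hg p => by
    by_cases hc : c = 0
    · rw [hc, zero_smul, (S.v p).map_zero]
      exact le_top
    · rw [Algebra.smul_def, (S.v p).map_mul, S.v_const p c hc, zero_add]
      exact hg p

theorem mem_WW {f : K} {m : ℕ} {g : K} : g ∈ WW S f m ↔ ∀ p, ng (nu S f m p) ≤ S.v p g := Iff.rfl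

theorem ng_add (a b : ℕ) : ng (a + b) = ng a + ng b := by
  unfold ng
  rw [← WithTop.coe_add]
  congr 1
  push_cast
  ring

theorem ng_anti {a b : ℕ} (h : a ≤ b) : ng b ≤ ng a := by
  unfold ng
  rw [WithTop.coe_le_coe]
  omega

theorem WW_one (f : K) : (1 : K) ∈ WW S f 0 := by
  intro p
  rw [(S.v p).map_one]
  exact le_rfl

theorem WW_sig {f : K} {m : ℕ} {g : K} (hg : g ∈ WW S f m) : S.σ g ∈ WW S f (m + 1) := by
  intro p
  rw [S.v_σ]
  refine le_trans (ng_anti ?_) (hg (S.τ p))
  show nu S f m (S.τ p) ≤ pl S f p + nu S f m (S.τ p)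
  omega

theorem WW_fsig {f : K} {m : ℕ} {g : K} (hg : g ∈ WW S f m) : f * S.σ g ∈ WW S f (m + 1) := by
  intro p
  rw [(S.v p).map_mul, S.v_σ]
  show ng (pl S f p + nu S f m (S.τ p)) ≤ _
  rw [ng_add]
  exact add_le_add (pl_spec S f p) (hg (S.τ p))

theorem WW_fin (hF : FdhStmt) (f : K) (m : ℕ) : FiniteDimensional F (WW S f m) :=
  (hF F K S (nu S f m) (nu_fin S f m) (WW S f m) fun _ hg p => hg p).1

theorem WW_finrank (hF : FdhStmt) (f : K) (m : ℕ) :
    finrank F (WW S f m) ≤ 1 + m * ∑ᶠ p, pl S f p := by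
  rw [← nu_sum]
  exact (hF F K S (nu S f m) (nu_fin S f m) (WW S f m) fun g hg p => hg p).2

end Pole

section Gens

variable (S : Dat F K) (f : K)

/-- the generators -/
def gens : Set (DD S.σ) := {y S.σ, mo S.σ f 1}

/-- the generating space -/
noncomputable def V0 : Submodule F (DD S.σ) := 1 ⊔ Submodule.span F (gens S f)

theorem one_le_V0 : (1 : Submodule F (DD S.σ)) ≤ V0 S f := le_sup_left

theorem y_mem_V0 : y S.σ ∈ V0 S f :=
  (le_sup_right : _ ≤ V0 S f) (Submodule.subset_span (Or.inl rfl))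

theorem fy_mem_V0 : mo S.σ f 1 ∈ V0 S f :=
  (le_sup_right : _ ≤ V0 S f) (Submodule.subset_span (Or.inr rfl))

theorem V0_le {T : Submodule F (DD S.σ)} (h1 : (1 : DD S.σ) ∈ T) (h2 : y S.σ ∈ T)
    (h3 : mo S.σ f 1 ∈ T) : V0 S f ≤ T := by
  refine sup_le (Submodule.one_le.2 h1) (Submodule.span_le.2 ?_)
  rintro _ (rfl | rfl)
  · exact h2
  · exact h3

theorem V0_pow_succ (n : ℕ) : V0 S f ^ n ≤ V0 S f ^ (n + 1) := by
  rw [pow_succ']
  calc V0 S f ^ n = 1 * V0 S f ^ n := (one_mul _).symm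
    _ ≤ V0 S f * V0 S f ^ n := mul_le_mul' (one_le_V0 S f) le_rfl

theorem V0_pow_mono {m n : ℕ} (h : m ≤ n) : V0 S f ^ m ≤ V0 S f ^ n := by
  induction n with
  | zero =>
    obtain rfl : m = 0 := by omega
    exact le_rfl
  | succ n ih =>
    rcases Nat.lt_or_ge n m with h1 | h1
    · obtain rfl : m = n + 1 := by omega
      exact le_rfl
    · exact (ih h1).trans (V0_pow_succ S f n)

/-- the algebra -/
noncomputable def A0 : Subalgebra F (DD S.σ) := Algebra.adjoin F (gens S f)

theorem y_mem_A0 : y S.σ ∈ A0 S f := Algebra.subset_adjoin (Or.inl rfl)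

theorem fy_mem_A0 : mo S.σ f 1 ∈ A0 S f := Algebra.subset_adjoin (Or.inr rfl)

theorem V0_le_A0 : V0 S f ≤ Subalgebra.toSubmodule (A0 S f) :=
  V0_le S f (one_mem (A0 S f)) (y_mem_A0 S f) (fy_mem_A0 S f)

theorem V0_pow_le_A0 (n : ℕ) : V0 S f ^ n ≤ Subalgebra.toSubmodule (A0 S f) := by
  induction n with
  | zero =>
    rw [pow_zero]
    exact Submodule.one_le.2 (one_mem (A0 S f))
  | succ n ih =>
    rw [pow_succ]
    exact Submodule.mul_le.2 fun a ha b hb => (A0 S f).mul_mem (ih ha) (V0_le_A0 S f hb)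

theorem A0_mem_pow {x : DD S.σ} (hx : x ∈ A0 S f) : ∃ r : ℕ, x ∈ V0 S f ^ r := by
  induction hx using Algebra.adjoin_induction with
  | mem x hx =>
    refine ⟨1, ?_⟩
    rw [pow_one]
    rcases hx with rfl | rfl
    · exact y_mem_V0 S f
    · exact fy_mem_V0 S f
  | algebraMap c =>
    refine ⟨0, ?_⟩
    rw [pow_zero, Algebra.algebraMap_eq_smul_one]
    exact Submodule.smul_mem _ _ (Submodule.one_le.1 le_rfl)
  | add a b _ _ ha hb =>
    obtain ⟨r, hr⟩ := ha
    obtain ⟨s, hs⟩ := hb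
    exact ⟨r + s, Submodule.add_mem _ (V0_pow_mono S f (by omega) hr)
      (V0_pow_mono S f (by omega) hs)⟩
  | mul a b _ _ ha hb =>
    obtain ⟨r, hr⟩ := ha
    obtain ⟨s, hs⟩ := hb
    refine ⟨r + s, ?_⟩
    rw [pow_add]
    exact Submodule.mul_mem_mul hr hs

theorem fd_le_pow (V : Submodule F (DD S.σ)) (hV : V ≤ Subalgebra.toSubmodule (A0 S f))
    (hfd : FiniteDimensional F V) : ∃ r : ℕ, V ≤ V0 S f ^ r := by
  obtain ⟨s, hs⟩ := (Submodule.fg_iff_finiteDimensional V).2 hfd
  have h1 : ∀ t : Finset (DD S.σ), (∀ x ∈ t, x ∈ A0 S f) → ∃ r : ℕ, ∀ x ∈ t, x ∈ V0 S f ^ r := by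
    classical
    intro t
    induction t using Finset.induction_on with
    | empty => exact fun _ => ⟨0, fun x hx => absurd hx (Finset.notMem_empty x)⟩
    | insert a t _ ih =>
      intro h
      obtain ⟨r, hr⟩ := ih fun x hx => h x (Finset.mem_insert_of_mem hx)
      obtain ⟨q, hq⟩ := A0_mem_pow S f (h a (Finset.mem_insert_self _ _))
      refine ⟨r + q, fun x hx => ?_⟩
      rcases Finset.mem_insert.1 hx with rfl | hx
      · exact V0_pow_mono S f (by omega) hq
      · exact V0_pow_mono S f (by omega) (hr x hx)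
  obtain ⟨r, hr⟩ := h1 s fun x hx => hV (hs ▸ Submodule.subset_span hx)
  refine ⟨r, ?_⟩
  rw [← hs]
  exact Submodule.span_le.2 fun x hx => hr x hx

/-- the upper bound -/
theorem V0_pow_le_acc (n : ℕ) : V0 S f ^ n ≤ acc S (WW S f) n := by
  induction n with
  | zero =>
    rw [pow_zero]
    refine Submodule.one_le.2 (Submodule.mem_map.2 ⟨1, WW_one S f, ?_⟩)
    exact (ι S.σ).map_one
  | succ n ih =>
    rw [pow_succ']
    refine Submodule.mul_le.2 fun a ha b hb => ?_
    have hb := ih hb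
    -- the elements which map `acc n` into `acc (n + 1)`
    have key : ∀ (a : DD S.σ), (∀ m g, m ≤ n → g ∈ WW S f m →
        a * mo S.σ g (m : ℤ) ∈ acc S (WW S f) (n + 1)) →
        ∀ b ∈ acc S (WW S f) n, a * b ∈ acc S (WW S f) (n + 1) := by
      intro a ha b hb
      have h1 : acc S (WW S f) n ≤ (acc S (WW S f) (n + 1)).comap (LinearMap.mulLeft F a) := by
        refine acc_le fun m hm => ?_
        rintro _ ⟨g, hg, rfl⟩
        exact ha m g hm hg
      exact h1 hb
    have h2 : V0 S f ≤ (acc S (WW S f) (n + 1)).comap (LinearMap.mulRight F b) := by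
      refine V0_le S f ?_ ?_ ?_
      · show (1 : DD S.σ) * b ∈ acc S (WW S f) (n + 1)
        rw [one_mul]
        exact (le_sup_left : acc S (WW S f) n ≤ acc S (WW S f) (n + 1)) hb
      · refine key (y S.σ) (fun m g hm hg => ?_) b hb
        rw [y, mo_mul, one_mul, zpow_one]
        refine le_acc (m := m + 1) (by omega) (Submodule.mem_map.2 ⟨_, WW_sig S hg, ?_⟩)
        rw [mol_apply]
        congr 1
        push_cast
        ring
      · refine key (mo S.σ f 1) (fun m g hm hg => ?_) b hb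
        rw [mo_mul, zpow_one]
        refine le_acc (m := m + 1) (by omega) (Submodule.mem_map.2 ⟨_, WW_fsig S hg, ?_⟩)
        rw [mol_apply]
        congr 1
        push_cast
        ring
    exact h2 ha

/-- the spaces `U σ(U) .. σ^(m-1)(U)` -/
noncomputable def UU : ℕ → Submodule F K
  | 0 => 1
  | m + 1 => Submodule.span F {1, f} * (UU m).map (sil S)

theorem UU_fin (m : ℕ) : FiniteDimensional F (UU S f m) := by
  rw [← Submodule.fg_iff_finiteDimensional]
  induction m with
  | zero =>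
    show (1 : Submodule F K).FG
    rw [Submodule.one_eq_span]
    exact Submodule.fg_span_singleton _
  | succ m ih =>
    exact Submodule.FG.mul (Submodule.fg_span (Set.toFinite _)) (ih.map _)

theorem UU_one (m : ℕ) : (1 : K) ∈ UU S f m := by
  induction m with
  | zero => exact Submodule.one_le.1 le_rfl
  | succ m ih =>
    have h1 : (1 : K) = 1 * sil S 1 := by rw [sil_apply, map_one, mul_one]
    rw [h1]
    exact Submodule.mul_mem_mul (Submodule.subset_span (Or.inl rfl))
      (Submodule.mem_map_of_mem ih)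

theorem UU_finrank (hD : DimStmt) (hf : ∀ z : F, algebraMap F K z ≠ f) (m : ℕ) :
    m + 1 ≤ finrank F (UU S f m) := by
  induction m with
  | zero =>
    have := UU_fin S f 0
    have h1 : UU S f 0 ≠ ⊥ := by
      intro h
      have h2 := UU_one S f 0
      rw [h, Submodule.mem_bot] at h2
      exact one_ne_zero h2
    have h3 : finrank F (UU S f 0) ≠ 0 := fun h => h1 (Submodule.finrank_eq_zero.1 h)
    omega
  | succ m ih =>
    have h1 : FiniteDimensional F (Submodule.span F ({1, f} : Set K)) :=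
      FiniteDimensional.span_of_finite F (Set.toFinite _)
    have h2 := UU_fin S f m
    have h3 : finrank F ((UU S f m).map (sil S)) = finrank F (UU S f m) :=
      (Submodule.equivMapOfInjective (sil S) (sil_inj S) _).finrank_eq.symm
    have h4 : Submodule.span F ({1, f} : Set K) ≠ ⊥ := by
      intro h
      have h5 : (1 : K) ∈ Submodule.span F ({1, f} : Set K) := Submodule.subset_span (Or.inl rfl)
      rw [h, Submodule.mem_bot] at h5
      exact one_ne_zero h5
    have h6 : (UU S f m).map (sil S) ≠ ⊥ := by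
      intro h
      have h5 : sil S 1 ∈ (UU S f m).map (sil S) := Submodule.mem_map_of_mem (UU_one S f m)
      rw [h, Submodule.mem_bot, sil_apply, map_one] at h5
      exact one_ne_zero h5
    have h7 : 2 ≤ finrank F (Submodule.span F ({1, f} : Set K)) := by
      have h8 : LinearIndependent F ![(1 : K), f] := by
        rw [LinearIndependent.pair_iff]
        intro s t hst
        by_cases ht : t = 0
        · subst ht
          rw [zero_smul, add_zero, Algebra.smul_def, mul_one] at hst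
          exact ⟨(map_eq_zero _).1 hst, rfl⟩
        · exfalso
          apply hf (-s / t)
          rw [Algebra.smul_def, Algebra.smul_def, mul_one] at hst
          have ht' : algebraMap F K t ≠ 0 := fun h => ht ((map_eq_zero _).1 h)
          rw [map_div₀, map_neg, div_eq_iff ht']
          linear_combination -hst
      have h9 := finrank_span_eq_card h8
      rw [Fintype.card_fin] at h9
      have h10 : Set.range ![(1 : K), f] = {1, f} := by
        simp [Matrix.range_cons, Matrix.range_empty, Set.pair_comm]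
      rw [h10] at h9
      exact h9.ge
    have h11 : FiniteDimensional F ((UU S f m).map (sil S)) := inferInstance
    have h12 := hD F K S _ _ h1 h11 h4 h6
    rw [h3] at h12
    show m + 1 + 1 ≤ finrank F (Submodule.span F {1, f} * (UU S f m).map (sil S) : Submodule F K)
    omega

theorem UU_map_le (m : ℕ) : (UU S f m).map (mol S (m : ℤ)) ≤ V0 S f ^ m := by
  induction m with
  | zero =>
    rintro _ ⟨g, hg, rfl⟩
    obtain ⟨c, rfl⟩ := Submodule.mem_one.1 hg
    rw [pow_zero]
    exact Submodule.mem_one.2 ⟨c, rfl⟩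
  | succ m ih =>
    rw [Submodule.map_le_iff_le_comap]
    refine Submodule.mul_le.2 fun u hu w hw => ?_
    obtain ⟨h, hh, rfl⟩ := Submodule.mem_map.1 hw
    have h1 : Submodule.span F ({1, f} : Set K) ≤ (V0 S f).comap (mol S 1) := by
      refine Submodule.span_le.2 ?_
      rintro x (hx | hx)
      · rw [hx]
        exact y_mem_V0 S f
      · rw [Set.mem_singleton_iff.1 hx]
        exact fy_mem_V0 S f
    have h2 : mo S.σ u 1 ∈ V0 S f := h1 hu
    have h3 : mo S.σ h (m : ℤ) ∈ V0 S f ^ m := ih (Submodule.mem_map_of_mem hh)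
    have h4 : mo S.σ (u * S.σ h) ((m + 1 : ℕ) : ℤ) = mo S.σ u 1 * mo S.σ h (m : ℤ) := by
      rw [mo_mul, zpow_one]
      congr 1
      push_cast
      ring
    show mo S.σ (u * S.σ h) ((m + 1 : ℕ) : ℤ) ∈ V0 S f ^ (m + 1)
    rw [h4, pow_succ']
    exact Submodule.mul_mem_mul h2 h3

theorem V0_pow_fin (hF : FdhStmt) (n : ℕ) : FiniteDimensional F ↥(V0 S f ^ n) := by
  have := acc_fin (S := S) (WW_fin S hF f) n
  exact Submodule.finiteDimensional_of_le (V0_pow_le_acc S f n)

theorem V0_pow_upper (hF : FdhStmt) (n : ℕ) :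
    finrank F ↥(V0 S f ^ n) ≤ (1 + ∑ᶠ p, pl S f p) * (n + 1) ^ 2 := by
  have h0 := acc_fin (S := S) (WW_fin S hF f) n
  have h1 := Submodule.finrank_mono (V0_pow_le_acc S f n)
  rw [acc_finrank (WW_fin S hF f)] at h1
  set g := ∑ᶠ p, pl S f p with hg
  have h2 : ∑ m ∈ Finset.range (n + 1), finrank F (WW S f m) ≤
      ∑ m ∈ Finset.range (n + 1), (1 + g) * (n + 1) := by
    refine Finset.sum_le_sum fun m hm => ?_
    have h3 := WW_finrank S hF f m
    rw [← hg] at h3
    have h4 : m ≤ n := by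
      have := Finset.mem_range.1 hm
      omega
    nlinarith [Nat.mul_le_mul_right g h4]
  rw [Finset.sum_const, Finset.card_range, smul_eq_mul] at h2
  calc finrank F ↥(V0 S f ^ n) ≤ _ := h1
    _ ≤ _ := h2
    _ = (1 + g) * (n + 1) ^ 2 := by ring

theorem V0_pow_lower (hF : FdhStmt) (hD : DimStmt) (hf : ∀ z : F, algebraMap F K z ≠ f) (n : ℕ) :
    (n + 1) * (n + 2) ≤ 2 * finrank F ↥(V0 S f ^ n) := by
  have h0 := V0_pow_fin S f hF n
  have h1 : acc S (UU S f) n ≤ V0 S f ^ n :=
    acc_le fun m hm => (UU_map_le S f m).trans (V0_pow_mono S f hm)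
  have h2 := Submodule.finrank_mono h1
  rw [acc_finrank (UU_fin S f)] at h2
  have h3 : ∑ m ∈ Finset.range (n + 1), (m + 1) ≤
      ∑ m ∈ Finset.range (n + 1), finrank F (UU S f m) :=
    Finset.sum_le_sum fun m _ => UU_finrank S f hD hf m
  have h4 : ∀ n : ℕ, 2 * ∑ m ∈ Finset.range (n + 1), (m + 1) = (n + 1) * (n + 2) := by
    intro n
    induction n with
    | zero => simp
    | succ n ih =>
      rw [Finset.sum_range_succ, mul_add, ih]
      ring
  have h5 := h4 n
  omega

theorem gkle (hF : FdhStmt) : GKle F (A0 S f) 2 := by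
  intro V hV hfd h1 ε hε
  obtain ⟨r, hr⟩ := fd_le_pow S f V hV hfd
  set g := ∑ᶠ p, pl S f p with hg
  have h2 : ∀ n : ℕ, V ^ n ≤ V0 S f ^ (r * n) := by
    intro n
    rw [pow_mul]
    induction n with
    | zero => rw [pow_zero, pow_zero]
    | succ n ih =>
      rw [pow_succ, pow_succ]
      exact Submodule.mul_le.2 fun a ha b hb => Submodule.mul_mem_mul (ih ha) (hr hb)
  have h3 : ∀ n : ℕ, 1 ≤ n →
      (finrank F ↥(V ^ n) : ℝ) ≤ ((1 + g : ℕ) * (r + 1) ^ 2 : ℝ) * (n : ℝ) ^ 2 := by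
    intro n hn
    have h4 := V0_pow_fin S f hF (r * n)
    have h5 := Submodule.finrank_mono (h2 n)
    have h6 := V0_pow_upper S f hF (r * n)
    rw [← hg] at h6
    have h7 : (r * n + 1) ^ 2 ≤ ((r + 1) * n) ^ 2 := Nat.pow_le_pow_left (by nlinarith) 2
    have h8 : finrank F ↥(V ^ n) ≤ (1 + g) * ((r + 1) * n) ^ 2 :=
      (h5.trans h6).trans (Nat.mul_le_mul_left _ h7)
    have h9 : (finrank F ↥(V ^ n) : ℝ) ≤ (((1 + g) * ((r + 1) * n) ^ 2 : ℕ) : ℝ) := by
      exact_mod_cast h8
    refine h9.trans (le_of_eq ?_)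
    push_cast
    ring
  have h10 : Filter.Tendsto (fun n : ℕ => (n : ℝ) ^ ε) Filter.atTop Filter.atTop :=
    (tendsto_rpow_atTop hε).comp tendsto_natCast_atTop_atTop
  filter_upwards [h10.eventually_ge_atTop ((1 + g : ℕ) * (r + 1) ^ 2 : ℝ),
    Filter.eventually_ge_atTop 1] with n hn1 hn2
  refine (h3 n hn2).trans ?_
  have h11 : (0 : ℝ) < n := by exact_mod_cast hn2
  rw [Real.rpow_add h11, mul_comm ((n : ℝ) ^ (2 : ℝ))]
  have h12 : (n : ℝ) ^ (2 : ℝ) = (n : ℝ) ^ 2 := by
    exact_mod_cast Real.rpow_natCast (n : ℝ) 2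
  rw [h12]
  exact mul_le_mul_of_nonneg_right hn1 (by positivity)

theorem gkge (hF : FdhStmt) (hD : DimStmt) (hf : ∀ z : F, algebraMap F K z ≠ f) :
    GKge F (A0 S f) := by
  intro d hd
  have h0 := V0_pow_fin S f hF 1
  rw [pow_one] at h0
  refine ⟨V0 S f, V0_le_A0 S f, h0, one_le_V0 S f, (2 - d) / 2, by linarith, ?_⟩
  have h10 : Filter.Tendsto (fun n : ℕ => (n : ℝ) ^ ((2 - d) / 2)) Filter.atTop Filter.atTop :=
    (tendsto_rpow_atTop (by linarith)).comp tendsto_natCast_atTop_atTop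
  refine Filter.Eventually.frequently ?_
  filter_upwards [h10.eventually_ge_atTop (2 : ℝ), Filter.eventually_ge_atTop 1] with n hn1 hn2
  have h11 : (0 : ℝ) < n := by exact_mod_cast hn2
  have h12 : (n : ℝ) ^ (2 : ℝ) = (n : ℝ) ^ 2 := by
    exact_mod_cast Real.rpow_natCast (n : ℝ) 2
  have h13 : (n : ℝ) ^ (d + (2 - d) / 2) * (n : ℝ) ^ ((2 - d) / 2) = (n : ℝ) ^ 2 := by
    rw [← Real.rpow_add h11, ← h12]
    congr 1
    ring
  have h14 : 0 < (n : ℝ) ^ (d + (2 - d) / 2) := Real.rpow_pos_of_pos h11 _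
  have h15 : (n : ℝ) ^ (d + (2 - d) / 2) * 2 ≤ (n : ℝ) ^ 2 := by
    rw [← h13]
    exact mul_le_mul_of_nonneg_left hn1 h14.le
  have h16 := V0_pow_lower S f hF hD hf n
  have h17 : (((n + 1) * (n + 2) : ℕ) : ℝ) ≤ ((2 * finrank F ↥(V0 S f ^ n) : ℕ) : ℝ) := by
    exact_mod_cast h16
  push_cast at h17
  nlinarith

end Gens

theorem amb : AmbStmt := by
  intro hF hD hO hFr hG F K _ _ _ S f hf hgen
  have h1 := gkle S f hF
  refine ⟨A0 S f, ?_, h1, gkge S f hF hD hf, ?_⟩
  · exact Subalgebra.fg_def.2 ⟨gens S f, (Set.finite_singleton _).insert _, rfl⟩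
  · obtain ⟨Q, hQ1, hQ2⟩ := hFr F (DD S.σ) (A0 S f) (hO F (DD S.σ) (A0 S f) 2 h1)
    have h2 : y S.σ ∈ Q := (hQ1 _).2 ⟨y S.σ, y_mem_A0 S f, 1, one_mem _, one_ne_zero, by
      rw [inv_one, mul_one]⟩
    have h3 : ι S.σ f ∈ Q := (hQ1 _).2 ⟨mo S.σ f 1, fy_mem_A0 S f, y S.σ, y_mem_A0 S f,
      y_ne_zero, by rw [mo_eq, zpow_one, mul_inv_cancel_right₀ y_ne_zero]⟩
    have h4 := hG F K S f hgen Q hQ2 h2 h3
    intro x
    exact (hQ1 x).1 (h4 ▸ Algebra.mem_top)

end Pool.Agent.Q2N.H9
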